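import Pool.Agent.Helper66.DC.Goals4

/-! Packet DC4-ARC (MP_628424_an): arcs of length less than one half. -/

set_option autoImplicit false

namespace Pool.Agent.Helper56.DC

theorem h_arc : Pool.Agent.Helper66.DC.Q_ARC := by
  intro m h hm
  have hpos : ∀ a : Fin m, 0 < m := fun a => lt_of_le_of_lt (Nat.zero_le _) a.isLt
  have key : ∀ (a : Fin m) (t : ℕ), t < h →
      (((a : ℕ) + 1 + t) % m = (a : ℕ) + 1 + t ∧ (a : ℕ) + 1 + t < m) ∨
      (((a : ℕ) + 1 + t) % m + m = (a : ℕ) + 1 + t ∧ ((a : ℕ) + 1 + t) % m < m) := by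
    intro a t ht
    have ha := a.isLt
    by_cases hc : (a : ℕ) + 1 + t < m
    · left
      exact ⟨Nat.mod_eq_of_lt hc, hc⟩
    · right
      have h1 : ((a : ℕ) + 1 + t) % m = (a : ℕ) + 1 + t - m := by
        rw [Nat.mod_eq_sub_mod (by omega), Nat.mod_eq_of_lt (by omega)]
      constructor
      · rw [h1]; omega
      · exact Nat.mod_lt _ (hpos a)
  refine ⟨fun a => (Finset.range h).image
    (fun t => (⟨((a : ℕ) + 1 + t) % m, Nat.mod_lt _ (hpos a)⟩ : Fin m)), ?_, ?_, ?_⟩
  · intro a
    rw [Finset.card_image_of_injOn, Finset.card_range]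
    intro t ht t' ht' hh
    have ht1 : t < h := Finset.mem_range.1 ht
    have ht2 : t' < h := Finset.mem_range.1 ht'
    have h2 : ((a : ℕ) + 1 + t) % m = ((a : ℕ) + 1 + t') % m := congrArg Fin.val hh
    have k1 := key a t ht1
    have k2 := key a t' ht2
    have ha := a.isLt
    omega
  · intro a hmem
    obtain ⟨t, ht, h1⟩ := Finset.mem_image.1 hmem
    have ht1 : t < h := Finset.mem_range.1 ht
    have h2 : ((a : ℕ) + 1 + t) % m = (a : ℕ) := congrArg Fin.val h1
    have k1 := key a t ht1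
    have ha := a.isLt
    omega
  · intro a b hab hb ha'
    obtain ⟨t, ht, h1⟩ := Finset.mem_image.1 hb
    obtain ⟨t', ht', h1'⟩ := Finset.mem_image.1 ha'
    have ht1 : t < h := Finset.mem_range.1 ht
    have ht2 : t' < h := Finset.mem_range.1 ht'
    have h2 : ((a : ℕ) + 1 + t) % m = (b : ℕ) := congrArg Fin.val h1
    have h3 : ((b : ℕ) + 1 + t') % m = (a : ℕ) := congrArg Fin.val h1'
    have k1 := key a t ht1
    have k2 := key b t' ht2
    have ha := a.isLt
    have hb' := b.isLt
    omega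

end Pool.Agent.Helper56.DC
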