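import Pool.Agent.Helper69.DC.Goals

/-!
Packet DC-CAY (MP_628424_an).
-/

namespace Pool.Agent.Helper56.DC

open MvPolynomial Finset ComplexConjugate Pool.Agent.Helper28.Ball Pool.Agent.Helper69.DC

theorem hf_self {N : ℕ} (x : Fin (N + 1) → ℂ) :
    hf x x = ((‖x 0‖ ^ 2 - ∑ j : Fin N, ‖x j.succ‖ ^ 2 : ℝ) : ℂ) := by
  unfold hf
  have h : ∀ z : ℂ, z * conj z = ((‖z‖ ^ 2 : ℝ) : ℂ) := by
    intro z
    rw [Complex.mul_conj, Complex.normSq_eq_norm_sq]
  rw [h, Finset.sum_congr rfl (fun j _ => h (x (Fin.succ j)))]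
  push_cast
  rfl

theorem null_re {m : ℕ} {β : Fin m → ℂ} {a : ℂ} (h : Null β a) :
    2 * a.re = ∑ i, ‖β i‖ ^ 2 := by
  unfold Null at h
  have h1 : ∀ i, β i * conj (β i) = ((‖β i‖ ^ 2 : ℝ) : ℂ) := by
    intro i
    rw [Complex.mul_conj, Complex.normSq_eq_norm_sq]
  rw [Finset.sum_congr rfl (fun i _ => h1 i), ← Complex.ofReal_sum] at h
  have h2 := congrArg Complex.re h
  rw [Complex.ofReal_re, Complex.add_re, Complex.conj_re] at h2
  linarith

theorem null_one_add {m : ℕ} {β : Fin m → ℂ} {a : ℂ} (h : Null β a) : 1 + a ≠ 0 := by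
  intro h0
  have h1 := null_re h
  have h2 : 0 ≤ ∑ i, ‖β i‖ ^ 2 := Finset.sum_nonneg fun i _ => by positivity
  have h3 := congrArg Complex.re h0
  simp only [Complex.add_re, Complex.one_re, Complex.zero_re] at h3
  linarith

theorem cay_sphere {m : ℕ} {β : Fin m → ℂ} {a : ℂ} (h : Null β a) :
    ∑ i : Fin (m + 1), ‖(Fin.cons ((1 - a) / (1 + a))
      (fun j => ((Real.sqrt 2 : ℝ) : ℂ) * β j / (1 + a)) : Fin (m + 1) → ℂ) i‖ ^ 2 = 1 := by
  have hne := null_one_add h
  have hpos : 0 < ‖1 + a‖ ^ 2 := by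
    have := norm_pos_iff.mpr hne
    positivity
  rw [Fin.sum_univ_succ]
  simp only [Fin.cons_zero, Fin.cons_succ]
  have h2 : ∀ j : Fin m, ‖((Real.sqrt 2 : ℝ) : ℂ) * β j / (1 + a)‖ ^ 2 =
      2 * ‖β j‖ ^ 2 / ‖1 + a‖ ^ 2 := by
    intro j
    rw [norm_div, norm_mul, Complex.norm_real, div_pow, mul_pow, Real.norm_eq_abs, sq_abs,
      Real.sq_sqrt (by norm_num)]
  rw [Finset.sum_congr rfl (fun j _ => h2 j), ← Finset.sum_div, ← Finset.mul_sum, ← null_re h,
    norm_div, div_pow, ← add_div, div_eq_one_iff_eq hpos.ne']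
  rw [Complex.sq_norm, Complex.sq_norm, Complex.normSq_apply, Complex.normSq_apply]
  simp only [Complex.sub_re, Complex.sub_im, Complex.add_re, Complex.add_im, Complex.one_re,
    Complex.one_im]
  ring

theorem g_cay (h1 : Pool.Agent.Helper69.DC.G_SPH) (h2 : Pool.Agent.Helper69.DC.G_ORTH)
    (h3 : Pool.Agent.Helper69.DC.G_CEV) (h4 : Pool.Agent.Helper69.DC.G_CCOP) :
    Pool.Agent.Helper69.DC.G_CAY := by
  intro m N d p q hpq hdeg
  let P : Fin (N + 1) → MvPolynomial (Fin (m + 1)) ℂ := Fin.cons q p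
  have hP0 : P 0 = q := rfl
  have hPs : ∀ j : Fin N, P j.succ = p j := fun j => rfl
  have hcop : ∀ r : MvPolynomial (Fin (m + 1)) ℂ, (∀ k, r ∣ P k) → IsUnit r :=
    fun r hr => hpq.1 r (hr 0) (fun j => hr j.succ)
  have hle : ∀ k, (P k).totalDegree ≤ d := by
    intro k
    refine Fin.cases ?_ ?_ k
    · rw [hP0, ← hdeg]
      exact le_max_left _ _
    · intro j
      rw [hPs, ← hdeg]
      exact le_trans (Finset.le_sup (f := fun j => (p j).totalDegree) (Finset.mem_univ j))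
        (le_max_right _ _)
  have htop : ∃ k, (P k).totalDegree = d := by
    by_contra hcon
    push Not at hcon
    have hlt : ∀ k, (P k).totalDegree < d := fun k => lt_of_le_of_ne (hle k) (hcon k)
    have hq : q.totalDegree < d := hlt 0
    have hp : (Finset.univ.sup fun j => (p j).totalDegree) < d := by
      rw [Finset.sup_lt_iff (lt_of_le_of_lt (Nat.zero_le _) hq)]
      intro j _
      exact hlt j.succ
    have : mapDegree p q < d := max_lt hq hp
    omega
  obtain ⟨c1, c2, c3⟩ := h4 m N d P hcop hle htop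
  refine ⟨fun k => cay d (P k), ?_, c1, c2, c3⟩
  apply h2 m N
  intro β a hnull
  have hne := null_one_add hnull
  have hval : ∀ k, fv (fun k => cay d (P k)) β a k =
      (1 + a) ^ d * eval (Fin.cons ((1 - a) / (1 + a))
        fun j => ((Real.sqrt 2 : ℝ) : ℂ) * β j / (1 + a)) (P k) :=
    fun k => h3 m d (P k) (hle k) β a hne
  have hs := h1 (m + 1) N p q hpq _ (cay_sphere hnull)
  rw [hf_self, hval 0, Finset.sum_congr rfl (fun j _ => by rw [hval (Fin.succ j)])]
  rw [norm_mul, mul_pow, Finset.sum_congr rfl (fun j _ => by rw [norm_mul, mul_pow]),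
    ← Finset.mul_sum, ← mul_sub]
  simp only [hP0, hPs]
  rw [hs, sub_self, mul_zero, Complex.ofReal_zero]

end Pool.Agent.Helper56.DC
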