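import Pool.Agent.Helper69.DC.Goals2
import Pool.Agent.Helper13.DC.X

/-!
Packet DC-TX (MP_628424_an).
-/

namespace Pool.Agent.Helper56.DC

open MvPolynomial Finset ComplexConjugate Pool.Agent.Helper28.Ball Pool.Agent.Helper69.DC
open Pool.Agent.Helper13.DC (prime_xp eval_xp)

section general

variable {m : ℕ} {R : Type*} [CommRing R]

/-- The linear form `∑ c_i X_i`. -/
noncomputable def lf (c : Fin m → R) : MvPolynomial (Fin m) R := ∑ i, c i • X i

theorem lf_homog (c : Fin m → R) : (lf c).IsHomogeneous 1 := by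
  unfold lf
  refine IsHomogeneous.sum _ _ _ fun i _ => ?_
  rw [MvPolynomial.smul_eq_C_mul]
  exact (isHomogeneous_X R i).C_mul (c i)

theorem coeff_lf_pow (c : Fin m → R) (J : ℕ) (α : Fin m →₀ ℕ) (hα : α.degree = J) :
    ((∏ i, (α i).factorial : ℕ) : R) * coeff α (lf c ^ J) =
      (J.factorial : R) * α.prod fun i e => c i ^ e := by
  have hsum : α.sum (fun _ e => e) = J := by
    rw [← hα]; rfl
  unfold lf
  rw [coeff_linearCombination_X_pow_of_fintype, if_pos hsum, ← mul_assoc, ← Nat.cast_mul]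
  congr 2
  have h1 : ∏ i, (α i).factorial = ∏ i ∈ α.support, (α i).factorial := by
    symm
    apply Finset.prod_subset (Finset.subset_univ _)
    intro i _ hi
    rw [Finsupp.notMem_support_iff.1 hi, Nat.factorial_zero]
  rw [h1, Finsupp.multinomial_eq, Nat.multinomial_spec]
  congr 1

theorem coeff_lf_mul_lt (c : Fin m → R) (l : ℕ) (G : MvPolynomial (Fin m) R)
    (α : Fin m →₀ ℕ) (hα : α.degree < l) : coeff α (lf c ^ l * G) = 0 := by
  classical
  have hh : (lf c ^ l).IsHomogeneous l := by
    have := (lf_homog c).pow l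
    rwa [one_mul] at this
  rw [coeff_mul]
  refine Finset.sum_eq_zero fun x hx => ?_
  have hx' := Finset.HasAntidiagonal.mem_antidiagonal.1 hx
  have hd : x.1.degree + x.2.degree = α.degree := by
    rw [← hx', map_add]
  rw [hh.coeff_eq_zero (d := x.1) (by omega), zero_mul]

theorem coeff_lf_mul_eq (c : Fin m → R) (l : ℕ) (G : MvPolynomial (Fin m) R)
    (α : Fin m →₀ ℕ) (hα : α.degree = l) :
    coeff α (lf c ^ l * G) = coeff α (lf c ^ l) * coeff 0 G := by
  classical
  have hh : (lf c ^ l).IsHomogeneous l := by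
    have := (lf_homog c).pow l
    rwa [one_mul] at this
  rw [coeff_mul, Finset.sum_eq_single (α, 0)]
  · rintro ⟨a, b⟩ hx hne
    have hx' := Finset.HasAntidiagonal.mem_antidiagonal.1 hx
    simp only at hx' ⊢
    have hd : a.degree + b.degree = α.degree := by
      rw [← hx', map_add]
    by_cases ha : a.degree = l
    · exfalso
      have hb : b.degree = 0 := by omega
      have hb0 : b = 0 := (Finsupp.degree_eq_zero_iff b).1 hb
      apply hne
      rw [hb0, add_zero] at hx'
      rw [hb0, hx']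
    · rw [hh.coeff_eq_zero (d := a) ha, zero_mul]
  · intro h
    exact absurd (Finset.HasAntidiagonal.mem_antidiagonal.2 (add_zero α)) h

theorem pr_add (P G H : MvPolynomial (Fin m) R) : pr P (G + H) = pr P G + pr P H := by
  unfold pr
  rw [← Finset.sum_add_distrib]
  exact Finset.sum_congr rfl fun α _ => by rw [coeff_add]; ring

theorem pr_C_mul (P G : MvPolynomial (Fin m) R) (a : R) : pr P (C a * G) = a * pr P G := by
  unfold pr
  rw [Finset.mul_sum]
  exact Finset.sum_congr rfl fun α _ => by rw [coeff_C_mul]; ring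

theorem pr_zero (P : MvPolynomial (Fin m) R) : pr P 0 = 0 := by
  unfold pr
  exact Finset.sum_eq_zero fun α _ => by rw [coeff_zero, mul_zero]

theorem pr_sum {ι : Type*} (P : MvPolynomial (Fin m) R) (s : Finset ι)
    (G : ι → MvPolynomial (Fin m) R) : pr P (∑ i ∈ s, G i) = ∑ i ∈ s, pr P (G i) := by
  classical
  induction s using Finset.induction_on with
  | empty => simp [pr_zero]
  | insert a s ha ih => rw [Finset.sum_insert ha, Finset.sum_insert ha, pr_add, ih]

theorem pr_lf_high (P G : MvPolynomial (Fin m) R) (c : Fin m → R) (J l : ℕ)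
    (hP : P.totalDegree ≤ J) (hl : J < l) : pr P (lf c ^ l * G) = 0 := by
  unfold pr
  refine Finset.sum_eq_zero fun α hα => ?_
  have h1 : α.degree ≤ P.totalDegree := by
    have := le_totalDegree hα
    exact this
  rw [coeff_lf_mul_lt c l G α (by omega), mul_zero]

theorem pr_lf_eq (P G : MvPolynomial (Fin m) R) (c : Fin m → R) (J : ℕ)
    (hP : P.totalDegree ≤ J) :
    pr P (lf c ^ J * G) = (J.factorial : R) * coeff 0 G * eval c (homogeneousComponent J P) := by
  classical
  unfold pr
  rw [homogeneousComponent_apply, map_sum, Finset.mul_sum, Finset.sum_filter]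
  refine Finset.sum_congr rfl fun α hα => ?_
  have h1 : α.degree ≤ P.totalDegree := le_totalDegree hα
  by_cases hd : α.degree = J
  · rw [if_pos hd, coeff_lf_mul_eq c J G α hd, eval_monomial]
    have h2 := coeff_lf_pow c J α hd
    calc coeff α P * ((∏ i, (α i).factorial : ℕ) : R) * (coeff α (lf c ^ J) * coeff 0 G)
        = coeff α P * coeff 0 G * (((∏ i, (α i).factorial : ℕ) : R) * coeff α (lf c ^ J)) := by
          ring
      _ = _ := by rw [h2]; ring
  · rw [if_neg hd, coeff_lf_mul_lt c J G α (by omega), mul_zero]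

end general

theorem tay1_xp {m : ℕ} (β v : Fin m → ℂ) :
    tay1 (xp β v) = C (xp β v) + lf fun i => (C (conj (v i)) : MvPolynomial (Fin m) ℂ) := by
  unfold tay1 xp lf
  rw [map_sum, map_sum, ← Finset.sum_add_distrib]
  refine Finset.sum_congr rfl fun i _ => ?_
  rw [map_mul, map_sub, aeval_X, MvPolynomial.smul_eq_C_mul]
  have h : ∀ z : ℂ, (aeval fun i => (C (X i) + X i : MvPolynomial (Fin m) (MvPolynomial (Fin m) ℂ)))
      (C z : MvPolynomial (Fin m) ℂ) = C (C z) := fun z => by
    rw [aeval_C]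
    rfl
  rw [h, h, map_mul, map_sub]
  ring

theorem coeff_zero_tay1 {m : ℕ} (r : MvPolynomial (Fin m) ℂ) : coeff 0 (tay1 r) = r := by
  rw [← constantCoeff_eq]
  have h : (constantCoeff : MvPolynomial (Fin m) (MvPolynomial (Fin m) ℂ) →+* _).comp
      (tay1 : MvPolynomial (Fin m) ℂ →ₐ[ℂ] _).toRingHom = RingHom.id _ := by
    apply MvPolynomial.ringHom_ext
    · intro z
      have e : tay1 (C z : MvPolynomial (Fin m) ℂ) = C (C z) := by
        unfold tay1
        rw [aeval_C]
        rfl
      show constantCoeff (tay1 (C z : MvPolynomial (Fin m) ℂ)) = C z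
      rw [e, constantCoeff_C]
    · intro i
      show constantCoeff (tay1 (X i : MvPolynomial (Fin m) ℂ)) = X i
      unfold tay1
      rw [aeval_X, map_add, constantCoeff_C, constantCoeff_X, add_zero]
  exact RingHom.congr_fun h r

theorem h_tx : Pool.Agent.Helper69.DC.H_TX := by
  intro m J β v P h hP hpr hdvd hne
  by_contra hh
  set S : MvPolynomial (Fin m) ℂ := ev2 (fun i => conj (v i)) (homogeneousComponent J P) with hS
  have hSe : S = eval (fun i => (C (conj (v i)) : MvPolynomial (Fin m) ℂ))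
      (homogeneousComponent J P) := rfl
  rcases Nat.eq_zero_or_pos J with hJ | hJ
  · subst hJ
    have h1 := pr_lf_eq P (tay1 h) (fun i => (C (conj (v i)) : MvPolynomial (Fin m) ℂ)) 0 hP
    rw [pow_zero, one_mul, hpr, ← hSe, coeff_zero_tay1, Nat.factorial_zero, Nat.cast_one,
      one_mul] at h1
    rcases mul_eq_zero.1 h1.symm with h2 | h2
    · exact hh h2
    · apply hne
      rw [h2, map_zero]
  -- v is not zero
  obtain ⟨i0, hi0⟩ : ∃ i, v i ≠ 0 := by
    by_contra hc
    push Not at hc
    apply hne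
    have h1 : (fun i => (C (conj (v i)) : MvPolynomial (Fin m) ℂ)) = 0 := by
      funext i
      rw [hc i]
      simp
    have h2 : S = 0 := by
      rw [hSe, h1]
      have h3 := (homogeneousComponent_isHomogeneous J P)
      have h4 : eval (0 : Fin m → MvPolynomial (Fin m) ℂ) (homogeneousComponent J P) =
          coeff 0 (homogeneousComponent J P) := by
        rw [← constantCoeff_eq, MvPolynomial.eval_zero]
      rw [h4]
      exact h3.coeff_eq_zero (by rw [map_zero]; omega)
    rw [h2, map_zero]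
  have hX := prime_xp β v hi0
  obtain ⟨r, hr, hnr⟩ :=
    (FiniteMultiplicity.of_not_isUnit hX.not_isUnit hh).exists_eq_pow_mul_and_not_dvd
  set k := multiplicity (xp β v) h with hk
  have hkJ : J ≤ k := by
    by_contra hlt
    have h1 : xp β v ^ (k + 1) ∣ h := (pow_dvd_pow _ (by omega)).trans hdvd
    rw [hr] at h1
    rw [pow_succ] at h1
    exact hnr ((mul_dvd_mul_iff_left (pow_ne_zero _ hX.ne_zero)).1 h1)
  obtain ⟨n, hn⟩ : ∃ n, k = n + J := ⟨k - J, by omega⟩
  set ξ := lf fun i => (C (conj (v i)) : MvPolynomial (Fin m) ℂ) with hξ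
  -- expansion
  have h1 : tay1 h = ∑ l ∈ range (k + 1),
      C (xp β v ^ (k - l) * (k.choose l : MvPolynomial (Fin m) ℂ)) * (ξ ^ l * tay1 r) := by
    conv_lhs => rw [hr]
    rw [map_mul, map_pow, tay1_xp, add_comm, add_pow, Finset.sum_mul]
    refine Finset.sum_congr rfl fun l _ => ?_
    rw [map_mul, map_pow, map_natCast]
    ring
  rw [h1, pr_sum] at hpr
  simp only [pr_C_mul] at hpr
  have hJk : J ∈ range (k + 1) := Finset.mem_range.2 (by omega)
  rw [← Finset.add_sum_erase _ _ hJk, pr_lf_eq P (tay1 r) _ J hP, ← hSe, coeff_zero_tay1] at hpr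
  have hrest : xp β v ^ (n + 1) ∣ ∑ l ∈ (range (k + 1)).erase J,
      xp β v ^ (k - l) * (k.choose l : MvPolynomial (Fin m) ℂ) * pr P (ξ ^ l * tay1 r) := by
    refine Finset.dvd_sum fun l hl => ?_
    have hl1 := Finset.ne_of_mem_erase hl
    rcases lt_or_gt_of_ne hl1 with hlt | hgt
    · refine Dvd.dvd.mul_right (Dvd.dvd.mul_right (pow_dvd_pow _ ?_) _) _
      omega
    · rw [pr_lf_high P (tay1 r) _ J l hP hgt, mul_zero]
      exact dvd_zero _
  have hkn : k - J = n := by omega
  rw [hkn] at hpr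
  have h2 : xp β v ^ (n + 1) ∣ xp β v ^ n *
      ((k.choose J : MvPolynomial (Fin m) ℂ) * ((J.factorial : MvPolynomial (Fin m) ℂ) * r * S)) := by
    have h3 : xp β v ^ n * ((k.choose J : MvPolynomial (Fin m) ℂ) *
        ((J.factorial : MvPolynomial (Fin m) ℂ) * r * S)) =
        - ∑ l ∈ (range (k + 1)).erase J,
          xp β v ^ (k - l) * (k.choose l : MvPolynomial (Fin m) ℂ) * pr P (ξ ^ l * tay1 r) := by
      linear_combination hpr
    rw [h3]
    exact (dvd_neg).2 hrest
  rw [pow_succ, mul_dvd_mul_iff_left (pow_ne_zero _ hX.ne_zero)] at h2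
  have hnat : ∀ j : ℕ, j ≠ 0 → ¬ xp β v ∣ (j : MvPolynomial (Fin m) ℂ) := by
    rintro j hj ⟨w, hw⟩
    have := congrArg (eval β) hw
    rw [map_mul (eval β) (xp β v) w, eval_xp, zero_mul, map_natCast] at this
    exact hj (by exact_mod_cast this)
  rcases hX.dvd_or_dvd h2 with h3 | h3
  · exact hnat _ (Nat.choose_pos hkJ).ne' h3
  · rcases hX.dvd_or_dvd h3 with h4 | ⟨w, hw⟩
    · rcases hX.dvd_or_dvd h4 with h5 | h5
      · exact hnat _ (Nat.factorial_ne_zero J) h5
      · exact hnr h5
    · apply hne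
      rw [hw, map_mul (eval β) (xp β v) w, eval_xp, zero_mul]

end Pool.Agent.Helper56.DC
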